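import Pool.Agent.W243.TD.Stm
import Pool.Agent.H301R2.TR.Upper

/-!
# TD-CONSTR (helper636): auxiliary function with small values by pigeonhole
-/

set_option autoImplicit false

namespace Pool.Agent.W636.TD

open Polynomial Finset Module
open Pool.Agent.W243.TD
open Pool.Agent.H301R2.TR

theorem constr (hpig : S_pig) (hcoef : S_coef) : S_constr := by
  classical
  intro w J _ k a θ Θ X W Y H T Q Δ N hΘ hθ hX hW hXW ha hk hΔ hN hcount
  have hY : 0 ≤ Y := by nlinarith
  have hE1 : 1 ≤ E1 H Y := E1_one_le H Y hY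
  have hE0 : 0 < E1 H Y := by linarith
  set D : ℝ := (3 * E1 H Y) ^ w * Θ ^ Δ with hD
  have hΘ0 : 0 < Θ := by linarith
  have hD0 : 0 < D := by positivity
  have hW0 : 0 < W := by linarith
  let ψ : (Fin w → Fin Q) → ℝ := fun q => ∏ i, ((((q i : ℕ) : ℝ) + 1) ^ T * W ^ (q i : ℕ))
  have hψ0 : ∀ q, 0 ≤ ψ q := fun q => Finset.prod_nonneg (fun i _ => by positivity)
  let cc : J → (Fin w → Fin Q) → ℂ := fun j q => ∏ i, coef (a j i) (k j i) (q i)
  have hcc : ∀ j q, ‖cc j q‖ * ψ q ≤ (3 * E1 H Y) ^ w := by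
    intro j q
    simp only [cc, ψ]
    rw [norm_prod, ← Finset.prod_mul_distrib]
    calc ∏ i, (‖coef (a j i) (k j i) (q i)‖ * ((((q i : ℕ) : ℝ) + 1) ^ T * W ^ (q i : ℕ)))
        ≤ ∏ _i : Fin w, (3 * E1 H Y) := by
          refine Finset.prod_le_prod (fun i _ => by positivity) (fun i _ => ?_)
          refine (hcoef (a j i) (k j i) (q i) T H X W Y hX hW (ha j i) hXW (hk j i)).trans ?_
          have : ((1 : ℝ) / 2) ^ (q i : ℕ) ≤ 1 := pow_le_one₀ (by norm_num) (by norm_num)
          nlinarith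
      _ = _ := by simp
  -- apply the pigeonhole principle
  let A : (Fin w → Fin Q) → J × Fin Δ → ℂ :=
    fun q je => cc je.1 q * (ψ q : ℂ) * θ ^ (je.2 : ℕ) / (D : ℂ)
  have hA : ∀ q je, ‖A q je‖ ≤ 1 := by
    intro q je
    simp only [A]
    rw [norm_div, norm_mul, norm_mul, Complex.norm_real, Complex.norm_real, norm_pow,
      Real.norm_of_nonneg (hψ0 q), Real.norm_of_nonneg hD0.le, div_le_one hD0]
    have h1 : ‖θ‖ ^ (je.2 : ℕ) ≤ Θ ^ Δ :=
      (pow_le_pow_left₀ (norm_nonneg _) hθ _).trans (pow_le_pow_right₀ hΘ je.2.2.le)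
    exact mul_le_mul (hcc _ _) h1 (by positivity) (by positivity)
  obtain ⟨p', hp'0, hp'N, hp'⟩ := hpig (Fin w → Fin Q) (J × Fin Δ) A N (2 ^ Q) hA hN
    Nat.one_le_two_pow (by simpa [Fintype.card_prod, Fintype.card_fun] using hcount)
  let p : J → ℤ[X] := fun j => ∑ e : Fin Δ, monomial (e : ℕ) (p' (j, e))
  have hpc : ∀ j i, (p j).coeff i = if h : i < Δ then p' (j, ⟨i, h⟩) else 0 := by
    intro j i
    simp only [p, finsetSum_coeff, coeff_monomial]
    split_ifs with h
    · rw [Finset.sum_eq_single (⟨i, h⟩ : Fin Δ)]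
      · simp
      · intro b _ hb
        rw [if_neg]
        intro hbi
        exact hb (Fin.ext hbi)
      · intro h'; exact absurd (mem_univ _) h'
    · refine Finset.sum_eq_zero (fun e _ => ?_)
      rw [if_neg]
      intro he
      exact h (he ▸ e.2)
  have hg : ∀ j, aeval θ (p j) = ∑ e : Fin Δ, (p' (j, e) : ℂ) * θ ^ (e : ℕ) := by
    intro j
    simp only [p, map_sum, aeval_monomial]
    rfl
  refine ⟨p, ?_, ?_, ?_, ?_⟩
  · intro h
    apply hp'0
    funext je
    have := congrArg (fun q => q.coeff (je.2 : ℕ)) (congrFun h je.1)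
    simp only [hpc, je.2.2, dif_pos] at this
    simpa using this
  · intro j
    by_contra hcon
    rw [not_lt] at hcon
    have hne : p j ≠ 0 := by
      intro h0
      rw [h0, natDegree_zero] at hcon
      omega
    have h1 : (p j).coeff (p j).natDegree ≠ 0 := by
      rw [coeff_natDegree]; exact leadingCoeff_ne_zero.mpr hne
    rw [hpc, dif_neg (by omega)] at h1
    exact h1 rfl
  · intro j i
    rw [hpc]
    split_ifs with h
    · exact hp'N _
    · simp
  · intro t z ht hz
    have hgn : ∀ j, ‖aeval θ (p j)‖ ≤ Δ * N * Θ ^ Δ := by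
      intro j
      rw [hg]
      refine (norm_sum_le _ _).trans ?_
      calc ∑ e : Fin Δ, ‖(p' (j, e) : ℂ) * θ ^ (e : ℕ)‖ ≤ ∑ _e : Fin Δ, (N * Θ ^ Δ) := by
            refine Finset.sum_le_sum (fun e _ => ?_)
            rw [norm_mul, norm_pow]
            have h1 : ‖θ‖ ^ (e : ℕ) ≤ Θ ^ Δ :=
              (pow_le_pow_left₀ (norm_nonneg _) hθ _).trans (pow_le_pow_right₀ hΘ e.2.le)
            have h2 : ‖(p' (j, e) : ℂ)‖ ≤ N := by
              rw [Complex.norm_intCast]
              exact_mod_cast hp'N (j, e)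
            exact mul_le_mul h2 h1 (by positivity) (by positivity)
        _ = _ := by simp; ring
    have hlb := fun j i => lam_bounds (a j i) (z i) (k j i) (t i) H X W Y hX hW
      (ha j i) (hz i) hXW ((Nat.add_le_add_left (ht i) _).trans (hk j i)) Q
    -- main term
    let V : (Fin w → Fin Q) → ℂ := fun q =>
      ∏ i, ((((q i : ℕ)).descFactorial (t i) : ℂ) * z i ^ ((q i : ℕ) - t i))
    have hV : ∀ q, ‖V q‖ ≤ ψ q := by
      intro q
      simp only [V, ψ]
      rw [norm_prod]
      refine Finset.prod_le_prod (fun i _ => norm_nonneg _) (fun i _ => ?_)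
      rw [norm_mul, norm_pow, Complex.norm_natCast]
      have h1 : (((q i : ℕ).descFactorial (t i) : ℕ) : ℝ) ≤ (((q i : ℕ) : ℝ) + 1) ^ T := by
        have e1 : (((q i : ℕ).descFactorial (t i) : ℕ) : ℝ) ≤ ((q i : ℕ) : ℝ) ^ (t i) := by
          exact_mod_cast Nat.descFactorial_le_pow (q i) (t i)
        have e2 : ((q i : ℕ) : ℝ) ^ (t i) ≤ (((q i : ℕ) : ℝ) + 1) ^ (t i) :=
          pow_le_pow_left₀ (by positivity) (by linarith) _
        have e3 : (((q i : ℕ) : ℝ) + 1) ^ (t i) ≤ (((q i : ℕ) : ℝ) + 1) ^ T :=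
          pow_le_pow_right₀ (by have : (0 : ℝ) ≤ ((q i : ℕ) : ℝ) := by positivity
                                linarith) (ht i)
        linarith
      have h2 : ‖z i‖ ^ ((q i : ℕ) - t i) ≤ W ^ (q i : ℕ) :=
        (pow_le_pow_left₀ (norm_nonneg _) (hz i) _).trans (pow_le_pow_right₀ hW (by omega))
      exact mul_le_mul h1 h2 (by positivity) (by positivity)
    have hmain_eq : ∑ j, aeval θ (p j) * ∏ i, trunc Q (a j i) (k j i) (t i) (z i)
        = ∑ q, (∑ j, aeval θ (p j) * cc j q) * V q := by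
      have h1 : ∀ j, ∏ i, trunc Q (a j i) (k j i) (t i) (z i) = ∑ q, cc j q * V q := by
        intro j
        simp only [trunc, cc, V]
        rw [Finset.prod_univ_sum, Fintype.piFinset_univ]
        refine Finset.sum_congr rfl (fun q _ => ?_)
        rw [← Finset.prod_mul_distrib]
      simp_rw [h1, Finset.mul_sum, Finset.sum_mul]
      rw [Finset.sum_comm]
      refine Finset.sum_congr rfl (fun q _ => Finset.sum_congr rfl (fun j _ => by ring))
    have hq : ∀ q, ‖∑ j, aeval θ (p j) * cc j q‖ * ψ q ≤ 2 * (1 / 2 : ℝ) ^ Q * D := by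
      intro q
      have h1 := hp' q
      have h2 : ∑ je, A q je * (p' je : ℂ) = (∑ j, aeval θ (p j) * cc j q) * (ψ q : ℂ) / (D : ℂ) := by
        rw [Fintype.sum_prod_type, Finset.sum_mul, Finset.sum_div]
        refine Finset.sum_congr rfl (fun j _ => ?_)
        rw [hg, Finset.sum_mul, Finset.sum_mul, Finset.sum_div]
        refine Finset.sum_congr rfl (fun e _ => ?_)
        simp only [A]
        ring
      rw [h2, norm_div, norm_mul, Complex.norm_real, Complex.norm_real,
        Real.norm_of_nonneg (hψ0 q), Real.norm_of_nonneg hD0.le, div_le_iff₀ hD0] at h1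
      refine h1.trans (le_of_eq ?_)
      push_cast
      rw [one_div, inv_pow]
      ring
    have hmain : ‖∑ j, aeval θ (p j) * ∏ i, trunc Q (a j i) (k j i) (t i) (z i)‖
        ≤ (Q : ℝ) ^ w * (2 * (1 / 2 : ℝ) ^ Q * D) := by
      rw [hmain_eq]
      refine (norm_sum_le _ _).trans ?_
      calc ∑ q : Fin w → Fin Q, ‖(∑ j, aeval θ (p j) * cc j q) * V q‖
          ≤ ∑ _q : Fin w → Fin Q, (2 * (1 / 2 : ℝ) ^ Q * D) := by
            refine Finset.sum_le_sum (fun q _ => ?_)
            rw [norm_mul]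
            exact (mul_le_mul_of_nonneg_left (hV q) (norm_nonneg _)).trans (hq q)
        _ = _ := by simp
    -- tail
    have htail : ‖∑ j, aeval θ (p j) *
        (∏ i, (LamC (a j i) (k j i) (t i) (z i) * Complex.exp (a j i * z i))
          - ∏ i, trunc Q (a j i) (k j i) (t i) (z i))‖ ≤
        Fintype.card J * ((Δ * N * Θ ^ Δ) * (w * (3 * E1 H Y) ^ w * (1 / 2 : ℝ) ^ Q)) := by
      refine (norm_sum_le _ _).trans ?_
      calc ∑ j, ‖aeval θ (p j) *
        (∏ i, (LamC (a j i) (k j i) (t i) (z i) * Complex.exp (a j i * z i))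
          - ∏ i, trunc Q (a j i) (k j i) (t i) (z i))‖
          ≤ ∑ _j : J, ((Δ * N * Θ ^ Δ) * (w * (3 * E1 H Y) ^ w * (1 / 2 : ℝ) ^ Q)) := by
            refine Finset.sum_le_sum (fun j _ => ?_)
            rw [norm_mul]
            refine mul_le_mul (hgn j) ?_ (norm_nonneg _) (by positivity)
            have h3 := norm_prod_sub_prod_le (Finset.univ : Finset (Fin w))
              (fun i => LamC (a j i) (k j i) (t i) (z i) * Complex.exp (a j i * z i))
              (fun i => trunc Q (a j i) (k j i) (t i) (z i)) (2 * E1 H Y) ((1 / 2) ^ Q)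
              (by linarith) (by positivity)
              (fun i _ => (hlb j i).1) (fun i _ => (hlb j i).2.1) (fun i _ => (hlb j i).2.2)
            rw [Finset.card_univ, Fintype.card_fin] at h3
            refine h3.trans ?_
            have h4 : (2 * E1 H Y) ^ w ≤ (3 * E1 H Y) ^ w :=
              pow_le_pow_left₀ (by positivity) (by linarith) _
            gcongr
        _ = _ := by simp
    have hsplit : ∑ j, aeval θ (p j) *
        ∏ i, (LamC (a j i) (k j i) (t i) (z i) * Complex.exp (a j i * z i))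
        = ∑ j, aeval θ (p j) * ∏ i, trunc Q (a j i) (k j i) (t i) (z i)
          + ∑ j, aeval θ (p j) *
        (∏ i, (LamC (a j i) (k j i) (t i) (z i) * Complex.exp (a j i * z i))
          - ∏ i, trunc Q (a j i) (k j i) (t i) (z i)) := by
      rw [← Finset.sum_add_distrib]
      refine Finset.sum_congr rfl (fun j _ => by ring)
    rw [hsplit]
    refine (norm_add_le _ _).trans ((add_le_add hmain htail).trans (le_of_eq ?_))
    rw [hD]
    push_cast
    ring

end Pool.Agent.W636.TD
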